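import Pool.Agent.MP_6b47b1_al.ThreeMain
import Mathlib.GroupTheory.PresentedGroup

/-!
Finite 3-groups with two generators and two relators have unbounded derived length.

The groups are generated by `p` and `H` subject to `p ^ 3 = X ^ M * H ^ N` and
`H * X * H⁻¹ = X ^ (-2)`, where `N = 3 ^ (k + 1) = 2 * n + 1`, `M = N * ((-2) ^ (n + 1) - 1)` and
`X = p⁻¹ * H ^ (n + 1) * p * (H ^ n)⁻¹`.
-/

set_option autoImplicit false

namespace Pool.Agent.Results.MP_6b47b1_al.TwoRelators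

open Pool.Agent.MP_6b47b1_al Pool.Agent.MP_6b47b1_al.Three in
theorem result (d : ℕ) : ∃ r : Fin 2 → FreeGroup (Fin 2),
    Finite (PresentedGroup (Set.range r)) ∧ IsPGroup 3 (PresentedGroup (Set.range r)) ∧
      derivedSeries (PresentedGroup (Set.range r)) d ≠ ⊥ := by
  obtain ⟨k, hk⟩ : ∃ k : ℕ, k = 3 ^ d := ⟨_, rfl⟩
  obtain ⟨n, hn⟩ : Odd (3 ^ (k + 1)) := Odd.pow (by decide)
  let x : FreeGroup (Fin 2) := FreeGroup.of 0
  let y : FreeGroup (Fin 2) := FreeGroup.of 1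
  let u : FreeGroup (Fin 2) := x⁻¹ * y ^ (n + 1) * x * (y ^ n)⁻¹
  let r : Fin 2 → FreeGroup (Fin 2) :=
    ![x ^ 3 * (u ^ ((3 : ℤ) ^ (k + 1) * ((-2) ^ (n + 1) - 1)) * y ^ (2 * n + 1))⁻¹,
      y * u * y⁻¹ * (u ^ (-2 : ℤ))⁻¹]
  let G := PresentedGroup (Set.range r)
  let p : G := PresentedGroup.of 0
  let H : G := PresentedGroup.of 1
  have hgen : Subgroup.closure {p, H} = ⊤ := by
    rw [← PresentedGroup.closure_range_of]
    congr 1
    ext g
    constructor
    · rintro (rfl | rfl)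
      · exact ⟨0, rfl⟩
      · exact ⟨1, rfl⟩
    · rintro ⟨j, rfl⟩
      fin_cases j
      · exact Or.inl rfl
      · exact Or.inr rfl
  have h1 : p ^ 3 = (p⁻¹ * H ^ (n + 1) * p * (H ^ n)⁻¹)
      ^ ((3 : ℤ) ^ (k + 1) * ((-2) ^ (n + 1) - 1)) * H ^ (2 * n + 1) := by
    have := PresentedGroup.one_of_mem (rels := Set.range r) ⟨0, rfl⟩
    simp only [r, u, Matrix.cons_val_zero, map_mul, map_inv, map_pow, map_zpow] at this
    exact mul_inv_eq_one.1 this
  have h2 : H * (p⁻¹ * H ^ (n + 1) * p * (H ^ n)⁻¹) * H⁻¹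
      = (p⁻¹ * H ^ (n + 1) * p * (H ^ n)⁻¹) ^ (-2 : ℤ) := by
    have := PresentedGroup.one_of_mem (rels := Set.range r) ⟨1, rfl⟩
    simp only [r, u, Matrix.cons_val_one, Matrix.cons_val_zero, map_mul, map_inv, map_pow,
      map_zpow] at this
    exact mul_inv_eq_one.1 this
  obtain ⟨hfin, hP⟩ := finite_three k n hn hgen rfl h1 h2
  refine ⟨r, hfin, hP, fun hbot => ?_⟩
  let R := ZMod (3 ^ (k + 2))
  have h0 : (3 : R) ^ (k + 2) = 0 := by
    have : ((3 ^ (k + 2) : ℕ) : R) = 0 := ZMod.natCast_self _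
    exact_mod_cast this
  obtain ⟨D, c, e, hU, r1, r2, hE, he⟩ := rep k n hn h0
  let φ : Fin 2 → Matrix.SpecialLinearGroup (Fin 2) R := ![rho, D]
  have hφ : ∀ w ∈ Set.range r, FreeGroup.lift φ w = 1 := by
    rintro _ ⟨j, rfl⟩
    fin_cases j
    · simp only [r, u, x, y, φ, Fin.zero_eta, Matrix.cons_val_one, Matrix.cons_val_zero, map_mul,
        map_pow, map_inv, map_zpow, FreeGroup.lift_apply_of]
      rw [hU, mul_inv_eq_one, r1]
    · simp only [r, u, x, y, φ, Fin.mk_one, Matrix.cons_val_one, Matrix.cons_val_zero, map_mul,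
        map_pow, map_inv, map_zpow, FreeGroup.lift_apply_of]
      rw [hU, mul_inv_eq_one, r2]
  let f := PresentedGroup.toGroup hφ
  have fp : f p = rho := PresentedGroup.toGroup.of hφ
  have fH : f H = D := PresentedGroup.toGroup.of hφ
  have hr : ∀ t : R, up (3 * t) ∈ f.range := by
    intro t
    refine ⟨(p⁻¹ * H * p * H) ^ (-2 * t).val, ?_⟩
    rw [map_pow, map_mul, map_mul, map_mul, map_inv, fp, fH, hE, up_pow, ZMod.natCast_zmod_val]
    congr 1
    linear_combination t * he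
  have key := up_mem f fp hr ⟨k + 2, h0⟩ d 1
  rw [hbot, Subgroup.map_bot, Subgroup.mem_bot] at key
  have key2 : ((3 ^ (3 ^ d) : ℕ) : R) = 0 := by
    have := congrArg (fun M : Matrix.SpecialLinearGroup (Fin 2) R => M.1 0 1) key
    simpa [up] using this
  rw [ZMod.natCast_eq_zero_iff, Nat.pow_dvd_pow_iff_le_right (by norm_num)] at key2
  omega

/-- The negated form of the posed question follows, since finite 3-groups are soluble. -/
theorem posed : ¬ (∃ d : ℕ, ∀ (G : Type) [Group G] [Finite G],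
    (∃ n : ℕ, ∃ r : Fin n → FreeGroup (Fin n), Nonempty (G ≃* PresentedGroup (Set.range r))) →
      Group.IsSolvable G → derivedSeries G d = ⊥) := by
  rintro ⟨d, hd⟩
  obtain ⟨r, hfin, hP, hne⟩ := result d
  have : Fact (Nat.Prime 3) := ⟨Nat.prime_three⟩
  have := hP.isNilpotent
  exact hne (hd _ ⟨2, r, ⟨MulEquiv.refl _⟩⟩ inferInstance)

end Pool.Agent.Results.MP_6b47b1_al.TwoRelators
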